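import Mathlib
import Pool.Agent.R421.EK.TwFin

set_option autoImplicit false

/-!
# The joint Gaussian law of the Tate-Shafarevich groups of isogenous curves and of their twists

Let `d_1, …, d_n` be nonzero integers, no product `d_l d_m` (`l ≠ m`) a square. For a pair of integers
`(A, B)` let `E_l : y² = x (x - d_l A) (x - d_l B)` be the quadratic twist by `d_l` of the curve
`y² = x (x - A) (x - B)`, and let `E_(i, l)`, `i = 0, 1, 2`, be the quotients of `E_l` by its three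
subgroups of order two. The pairs `(A, B)` run through a box of side `X`, at any place within a power
of `X` from the origin.

(1) For all the pairs with at most `ε X²` exceptions the ranks of all the curves are at most `R`,
`Ш(E_l)[2 ^ j]` has at most `2 ^ (R j)` elements and `2 Ш(E_(i, l))[2 ^ j]` has at most `2 ^ (R j)`
elements, for all `j ≥ 1`.

(2) The `3 n` numbers
`(log₂ #Ш(E_(i, l))[2 ^ j_(i, l)] - (3 / 2) log log X) / √(log log X)` have a joint Gaussian limit law: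
that of `(3 / 2) G_i + (1 / 2) G_(i, l)`, where the `G_i` and the `G_(i, l)` are `3 + 3 n` independent
standard Gaussian variables. The exponents `j_(i, l) ≥ 1` may depend on the pair `(A, B)` in an
arbitrary way and may grow with `X`, they only have to be `o(√(log log X))`.

So the groups of the three isogenous curves are asymptotically independent, each with the variance
`(5 / 2) log log X`, and the groups of the twists of one of them by different `d_l` have the correlation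
`9 / 10`.
-/

namespace Pool.Agent.Results.MP_e23604_nt.JointLawOfSha

open Finset MeasureTheory ProbabilityTheory WeierstrassCurve

open Pool.Agent.TH841.SH.D (Sha)

open Pool.Agent.R421.EK (shift_le muT muT_null str_tw tw_box Tw Vt St Bx sandwich2)

open Pool.Agent.R431.NO (typ1)

open Pool.Agent.R421.NR (big_ll)

/-- the curve `y² = x (x - A) (x - B)` -/
def E (A B : ℤ) : WeierstrassCurve ℚ := ⟨0, -((A : ℚ) + B), 0, (A : ℚ) * B, 0⟩

/-- the quotient of `y² = x (x - a) (x - b)` by its subgroup generated by `(0, 0)`: the curve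
`y² = x³ + 2 (a + b) x² + (a - b)² x` -/
def Q (a b : ℤ) : WeierstrassCurve ℚ := ⟨0, 2 * ((a : ℚ) + b), 0, ((a : ℚ) - b) ^ 2, 0⟩

/-- the quotients of `E A B` by the subgroups generated by `(0, 0)`, `(A, 0)`, `(B, 0)` -/
def E' (i : Fin 3) (A B : ℤ) : WeierstrassCurve ℚ := ![Q A B, Q (-A) (B - A), Q (-B) (A - B)] i

/-- the elements of the Tate-Shafarevich group of `W` killed by `2 ^ j` -/
def tor (W : WeierstrassCurve ℚ) (j : ℕ) : Set (Sha W) := {x | (2 ^ j) • x = 0}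

/-- the rank of the group of the rational points of `W` -/
noncomputable def rank (W : WeierstrassCurve ℚ) : ℕ := Module.finrank ℤ W.toAffine.Point

/-- For `E A B`: `2 ^ rank * #Ш[2 ^ j] ^ (1 / j) ≤ 2 ^ R` for all `j ≥ 1`. For its three 2-isogenous
curves: the rank is at most `R`, `Ш[2 ^ j]` is finite and `#(2 Ш[2 ^ j]) ≤ 2 ^ (R j)` for all
`j ≥ 1`. -/
structure Typical (R : ℕ) (A B : ℤ) : Prop where
  ne : A ≠ 0 ∧ B ≠ 0 ∧ A ≠ B
  curve : ∀ j : ℕ, 1 ≤ j → (tor (E A B) j).Finite ∧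
    2 ^ (rank (E A B) * j) * (tor (E A B) j).ncard ≤ 2 ^ (R * j)
  isog : ∀ i : Fin 3, rank (E' i A B) ≤ R ∧ ∀ j : ℕ, 1 ≤ j → (tor (E' i A B) j).Finite ∧
    ((fun x => x + x) '' tor (E' i A B) j).ncard ≤ 2 ^ (R * j)

/-- the pairs `(A, B)` with `N₁ < A ≤ N₁ + X`, `N₂ < B ≤ N₂ + X` -/
noncomputable def box (N₁ N₂ : ℤ) (X : ℕ) : Finset (ℤ × ℤ) :=
  Ioc N₁ (N₁ + (X : ℤ)) ×ˢ Ioc N₂ (N₂ + (X : ℤ))

/-- the normalised binary logarithm of the number of the elements of `Ш(W)` killed by `2 ^ j` -/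
noncomputable def normLog (X : ℕ) (W : WeierstrassCurve ℚ) (j : ℕ) : ℝ :=
  (Real.logb 2 (tor W j).ncard - 3 / 2 * Real.log (Real.log X)) / √(Real.log (Real.log X))

/-- the probability that `(3 / 2) G_i + (1 / 2) G_(i, l) ≤ x i l` for all `i` and `l`, where the `G_i`
and the `G_(i, l)` are the coordinates of a standard Gaussian vector -/
noncomputable def limitProb {n : ℕ} (x : Fin 3 → Fin n → ℝ) : ℝ :=
  (stdGaussian (EuclideanSpace ℝ (Fin 3 ⊕ Fin 3 × Fin n))).real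
    {w | ∀ (i : Fin 3) (l : Fin n), 3 / 2 * w (Sum.inl i) + 1 / 2 * w (Sum.inr (i, l)) ≤ x i l}

lemma E'_eq (i : Fin 3) (A B : ℤ) : E' i A B =
    Pool.Agent.TH841.LS.WI (Pool.Agent.Y676.IS.tri i A B).1 (Pool.Agent.Y676.IS.tri i A B).2 := by
  fin_cases i <;> rfl

lemma limitProb_eq {n : ℕ} (x : Fin 3 → Fin n → ℝ) : limitProb x =
    (Pool.Agent.R421.EK.muT 3 n).real {w | ∀ k, w k ≤ x k.1 k.2} := by
  unfold limitProb Pool.Agent.R421.EK.muT
  have hm : MeasurableSet {w : EuclideanSpace ℝ (Fin 3 × Fin n) | ∀ k, w k ≤ x k.1 k.2} := by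
    have e : {w : EuclideanSpace ℝ (Fin 3 × Fin n) | ∀ k, w k ≤ x k.1 k.2} =
        ⋂ k, {w | w k ≤ x k.1 k.2} := by
      ext w
      simp
    rw [e]
    exact MeasurableSet.iInter fun k => measurableSet_le (by fun_prop) measurable_const
  rw [measureReal_def, measureReal_def, Measure.map_apply (Pool.Agent.R421.EK.Lm_meas 3 n) hm]
  congr 2
  ext w
  constructor
  · intro h k
    exact h k.1 k.2
  · intro h i l
    exact h (i, l)

lemma natAbs_of {N : ℤ} {X L : ℕ} (h : |N| ≤ (X : ℤ) ^ L) : N.natAbs ≤ X ^ L := by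
  zify
  exact h

lemma typical_of {R : ℕ} {A B : ℤ} {lo hi : Fin 3 → ℝ}
    (h : ∀ i, Pool.Agent.R431.NO.OkS (lo i) (hi i) R (Pool.Agent.Y676.IS.tri i A B)) :
    Typical R A B := by
  obtain ⟨h1, h2, h3, h4, -⟩ := h 0
  refine ⟨⟨h1, h2, h3⟩, h4, fun i => ?_⟩
  obtain ⟨g1, g2⟩ := Pool.Agent.R431.NO.typ1 (h i)
  rw [E'_eq]
  refine ⟨g1, fun j hj => ?_⟩
  obtain ⟨k1, -, -, k4⟩ := g2 j hj
  refine ⟨k1, ?_⟩
  convert k4 using 2
  ext y
  constructor
  · rintro ⟨x, hx, rfl⟩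
    exact ⟨x, hx, rfl⟩
  · rintro ⟨x, hx, rfl⟩
    exact ⟨x, hx, rfl⟩

/-- multiplication by two: the size of the group killed by `2 ^ j` between the bounds for `j = 1` -/
lemma dist_le {S R lg s δ : ℝ} {j : ℕ} {ℓ : ℝ} (hs : 0 < s) (hR : 0 ≤ R)
    (h5 : S - R ≤ lg) (h6 : lg ≤ S + R + (R + 1) * j) (hj : (j : ℝ) ≤ δ / (2 * (R + 1)) * s)
    (hs1 : 2 * R / δ ≤ s) (hδ : 0 < δ) :
    |(lg - 3 / 2 * ℓ) / s - (S - 3 / 2 * ℓ) / s| ≤ δ := by
  rw [← sub_div, abs_div, abs_of_pos hs, div_le_iff₀ hs]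
  have e1 : 2 * R ≤ s * δ := by rwa [div_le_iff₀ hδ] at hs1
  have e2 : (R + 1) * (j : ℝ) ≤ δ * s / 2 := by
    have h := mul_le_mul_of_nonneg_left hj (show (0 : ℝ) ≤ R + 1 by linarith)
    refine h.trans (le_of_eq ?_)
    field_simp
  rw [abs_le]
  constructor <;> nlinarith

/-- **Theorem.** Let `d_1, …, d_n` be nonzero integers such that `d_l d_m` is not a square for
`l ≠ m`, and let `L ≥ 0`. The pairs of integers `t = (A, B)` run through a box of side `X` whose corner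
has coordinates at most `X ^ L` in absolute value.

(1) For `ε > 0` there are `R` and `X₀` such that for `X ≥ X₀` at most `ε X²` pairs of the box are
not typical: for all the others and all `l` the curve `E (d_l A) (d_l B)` and its 2-isogenous curves
satisfy the bounds of `Typical`.

(2) For all real numbers `x i l` and `ε > 0` there are `δ > 0` and `X₀` such that for `X ≥ X₀` and for
all functions `j i l t` of the pair `t` with `1 ≤ j i l t ≤ δ √(log log X)` the following holds. The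
proportion of the pairs `t = (A, B)` of the box for which all the groups `Ш(E_(i, l))[2 ^ (j i l t)]`
are finite and their normalised logarithms are at most `x i l` is within `ε` of the probability that
`(3 / 2) G_i + (1 / 2) G_(i, l) ≤ x i l` for all `i`, `l`; here `E_(i, l) = E' i (d_l A) (d_l B)`. -/
theorem result {n : ℕ} (d : Fin n → ℤ) (hd : ∀ l, d l ≠ 0)
    (hdd : ∀ l m, l ≠ m → ¬ IsSquare (d l * d m)) (L : ℕ) :
    (∀ ε : ℝ, 0 < ε → ∃ R X₀ : ℕ, ∀ (N₁ N₂ : ℤ) (X : ℕ), X₀ ≤ X → |N₁| ≤ (X : ℤ) ^ L →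
      |N₂| ≤ (X : ℤ) ^ L →
      ({t ∈ (box N₁ N₂ X : Set (ℤ × ℤ)) | ¬ ∀ l, Typical R (d l * t.1) (d l * t.2)}.ncard : ℝ) ≤
        ε * (X : ℝ) ^ 2) ∧
    ∀ (x : Fin 3 → Fin n → ℝ) (ε : ℝ), 0 < ε → ∃ δ : ℝ, 0 < δ ∧ ∃ X₀ : ℕ,
      ∀ (N₁ N₂ : ℤ) (X : ℕ), X₀ ≤ X → |N₁| ≤ (X : ℤ) ^ L → |N₂| ≤ (X : ℤ) ^ L →
      ∀ j : Fin 3 → Fin n → ℤ × ℤ → ℕ,
        (∀ i l, ∀ t ∈ box N₁ N₂ X, 1 ≤ j i l t ∧
          (j i l t : ℝ) ≤ δ * √(Real.log (Real.log X))) →
        |({t ∈ (box N₁ N₂ X : Set (ℤ × ℤ)) | ∀ (i : Fin 3) (l : Fin n),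
            (tor (E' i (d l * t.1) (d l * t.2)) (j i l t)).Finite ∧
            normLog X (E' i (d l * t.1) (d l * t.2)) (j i l t) ≤ x i l}.ncard : ℝ) /
              (X : ℝ) ^ 2 - limitProb x| ≤ ε := by
  classical
  refine ⟨fun ε hε => ?_, fun x ε hε => ?_⟩
  · obtain ⟨R, X₀, h⟩ := Pool.Agent.R421.EK.str_tw d hd ε L hε
    refine ⟨R, X₀, fun N₁ N₂ X hX h1 h2 => ?_⟩
    obtain ⟨T, hT1, hT2⟩ := h N₁ N₂ X hX (natAbs_of h1) (natAbs_of h2)
    refine le_trans (Nat.cast_le.2 ?_) hT1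
    rw [← Set.ncard_coe_finset T]
    refine Set.ncard_le_ncard (fun t ht => ?_) T.finite_toSet
    obtain ⟨ht1, ht2⟩ := ht
    by_contra hn
    exact ht2 fun l => typical_of fun i => hT2 t (mem_coe.1 ht1) (fun h => hn (mem_coe.2 h)) (i, l)
  · have hdd' : ∀ l m, l ≠ m → ∀ r : ℤ, r ^ 2 ≠ d l * d m :=
      fun l m hlm r hr => hdd l m hlm ⟨r, by rw [← hr]; ring⟩
    obtain ⟨η, hη0, hη1, hη2⟩ := shift_le (muT 3 n) (fun k => x k.1 k.2) (ε / 4) (muT_null 3 n)
      (by positivity)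
    obtain ⟨R, X1, hR⟩ := str_tw d hd (ε / 4) L (by positivity)
    obtain ⟨X2, h2⟩ := tw_box d hd hdd' (fun k => x k.1 k.2 - η) (ε / 4) (by positivity)
    obtain ⟨X3, h3⟩ := tw_box d hd hdd' (fun k => x k.1 k.2 + η) (ε / 4) (by positivity)
    obtain ⟨X4, h4⟩ := big_ll ((2 * R / η + 1) ^ 2)
    refine ⟨η / (2 * (R + 1)), by positivity, X1 + X2 + X3 + X4 + 1,
      fun N₁ N₂ X hX hN1 hN2 j hj => ?_⟩
    obtain ⟨T, hT1, hT2⟩ := hR N₁ N₂ X (by omega) (natAbs_of hN1) (natAbs_of hN2)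
    have hX2 : (0 : ℝ) < (X : ℝ) ^ 2 := by
      have : 0 < X := by omega
      positivity
    have g2 := h2 X (by omega) N₁ N₂ X X le_rfl le_rfl
    have g3 := h3 X (by omega) N₁ N₂ X X le_rfl le_rfl
    have g4 := h4 X (by omega)
    have hXX : (X : ℝ) * X = (X : ℝ) ^ 2 := by ring
    rw [hXX] at g2 g3
    have hs1 : 2 * R / η + 1 ≤ √(Real.log (Real.log X)) := Real.le_sqrt_of_sq_le g4
    have hs0 : 0 < √(Real.log (Real.log X)) := by
      have : 0 ≤ 2 * (R : ℝ) / η := by positivity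
      linarith
    have hbox : Bx N₁ N₂ X X = box N₁ N₂ X := rfl
    have key : ∀ t ∈ Bx N₁ N₂ X X, t ∉ T →
        (∀ k : Fin 3 × Fin n, (Tw d k (j k.1 k.2 t) t).Finite) ∧
        ∀ k : Fin 3 × Fin n, |(Real.logb 2 (Tw d k (j k.1 k.2 t) t).ncard -
          3 / 2 * Real.log (Real.log X)) / √(Real.log (Real.log X)) - Vt d X t k| ≤ η := by
      intro t ht hn
      have hok := hT2 t ht hn
      have h1 := fun k => (typ1 (hok k)).2 (j k.1 k.2 t) (hj k.1 k.2 t ht).1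
      refine ⟨fun k => (h1 k).1, fun k => ?_⟩
      obtain ⟨-, h5, h6, -⟩ := h1 k
      change St d k X t - R ≤ Real.logb 2 (Tw d k (j k.1 k.2 t) t).ncard at h5
      change Real.logb 2 (Tw d k (j k.1 k.2 t) t).ncard ≤
        St d k X t + R + ((R + 1 : ℕ) : ℝ) * (j k.1 k.2 t : ℕ) at h6
      push_cast at h6
      unfold Vt
      exact dist_le hs0 (Nat.cast_nonneg R) h5 h6 (hj k.1 k.2 t ht).2 (by linarith) hη0
    obtain ⟨M, hM⟩ : ∃ M : Finset (ℤ × ℤ), M = (Bx N₁ N₂ X X).filter (fun t =>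
      (∀ k : Fin 3 × Fin n, (Tw d k (j k.1 k.2 t) t).Finite) ∧
        ∀ k : Fin 3 × Fin n, (Real.logb 2 (Tw d k (j k.1 k.2 t) t).ncard -
          3 / 2 * Real.log (Real.log X)) / √(Real.log (Real.log X)) ≤ x k.1 k.2) := ⟨_, rfl⟩
    have hMset : {t ∈ (box N₁ N₂ X : Set (ℤ × ℤ)) | ∀ (i : Fin 3) (l : Fin n),
            (tor (E' i (d l * t.1) (d l * t.2)) (j i l t)).Finite ∧
            normLog X (E' i (d l * t.1) (d l * t.2)) (j i l t) ≤ x i l} = (M : Set (ℤ × ℤ)) := by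
      ext t
      rw [hM, mem_coe, mem_filter, Set.mem_ofPred_eq, mem_coe, hbox]
      refine and_congr Iff.rfl ?_
      constructor
      · intro g
        refine ⟨fun k => ?_, fun k => ?_⟩
        · have := (g k.1 k.2).1
          rw [E'_eq] at this
          exact this
        · have := (g k.1 k.2).2
          rw [E'_eq] at this
          exact this
      · rintro ⟨g1, g2⟩ i l
        rw [E'_eq]
        exact ⟨g1 (i, l), g2 (i, l)⟩
    rw [hMset, Set.ncard_coe_finset, limitProb_eq]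
    obtain ⟨A, hA⟩ : ∃ A, A = (Bx N₁ N₂ X X).filter
      (fun t => ∀ i, Vt d X t i ≤ x i.1 i.2 - η) := ⟨_, rfl⟩
    obtain ⟨B, hB⟩ : ∃ B, B = (Bx N₁ N₂ X X).filter
      (fun t => ∀ i, Vt d X t i ≤ x i.1 i.2 + η) := ⟨_, rfl⟩
    obtain ⟨k1, k2⟩ := sandwich2 (Bx N₁ N₂ X X) T M A B
      (fun t k => (Real.logb 2 (Tw d k (j k.1 k.2 t) t).ncard -
          3 / 2 * Real.log (Real.log X)) / √(Real.log (Real.log X))) (Vt d X)
      (fun t => ∀ i : Fin 3 × Fin n, (Tw d i (j i.1 i.2 t) t).Finite) η key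
      (fun k => x k.1 k.2)
      (fun t => by rw [hM, mem_filter]) (fun t => by rw [hA, mem_filter])
      (fun t => by rw [hB, mem_filter])
    have g2' := (abs_le.1 g2).1
    have g3' := (abs_le.1 g3).2
    have g2'' : -(ε / 4) ≤ (A.card : ℝ) / (X : ℝ) ^ 2 -
        (muT 3 n).real {w | ∀ k, w k ≤ x k.1 k.2 - η} := by
      rw [hA]
      refine g2'.trans (le_of_eq ?_)
      congr!
    have g3'' : (B.card : ℝ) / (X : ℝ) ^ 2 -
        (muT 3 n).real {w | ∀ k, w k ≤ x k.1 k.2 + η} ≤ ε / 4 := by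
      rw [hB]
      refine le_trans (le_of_eq ?_) g3'
      congr!
    have r1 : (A.card : ℝ) / (X : ℝ) ^ 2 ≤ (M.card : ℝ) / (X : ℝ) ^ 2 + ε / 4 := by
      rw [div_add' _ _ _ hX2.ne']
      apply div_le_div_of_nonneg_right _ hX2.le
      linarith
    have r2 : (M.card : ℝ) / (X : ℝ) ^ 2 ≤ (B.card : ℝ) / (X : ℝ) ^ 2 + ε / 4 := by
      rw [div_add' _ _ _ hX2.ne']
      apply div_le_div_of_nonneg_right _ hX2.le
      linarith
    rw [abs_le]
    constructor <;> linarith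

end Pool.Agent.Results.MP_e23604_nt.JointLawOfSha
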