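import Mathlib
import Pool.Agent.N534.RayPhi

set_option autoImplicit false

/-!
# The distribution of zeta on the critical line is controlled by the points at which it lies on one ray

Let `Z(t) = |ζ(1/2 + it)|`, let `u ≠ 0` be a complex number and let `Ray u a b` be the set of the heights
`v ≥ 100` in `[a, b]` at which `ζ(1/2 + iv)` is a positive real multiple of `u` (for `u = 1` and `u = -1` these
are the Gram points with a positive, respectively a negative value). For ALL intervals `[a, b]`, ALL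
non-decreasing functions `Φ ≥ 0` and all directions `u`, with constants that depend on none of them:

* `∫_a^b Φ(Z) ≤ C log T ((b - a + 1) Φ(C log T) + ∑ Φ(C log T Z(v)))`, the sum over the `v` in
  `Ray u (a - C log T) (b + C log T)`, for `N ≤ a ≤ b ≤ T`;
* `∑ Φ(Z(v)) ≤ B log T ((b - a + 1) Φ(B T ^ ε) + ∫_(a - 1)^(b + 1) Φ(T ^ ε Z))`, the sum over the `v` in
  `Ray u a b`, for `100 ≤ a ≤ b ≤ T`, for every `ε > 0`;

so the measure of the set of the `t` where `Z(t)` is larger than a given number and the number of the points of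
the ray where it is are the same up to `T ^ ε`, for every direction. Consequences for the moments, for every
real `p > 0`:

* the bound `(1 / T) ∫_0^T Z ^ p = O(T ^ ε)` for every `ε > 0` is equivalent to the same bound for the sum
  of `Z(v) ^ p` over `Ray u 0 T`, for any direction `u`;
* the sum of `Z(v) ^ p` over the points of the ray in a short interval `[T, T + H]` is, uniformly in `u`, at
  least a constant times `H (log H) ^ (p ^ 2 / 4) / (log T) ^ (p + 1)`, if `H ≥ exp ((log T) ^ δ)` and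
  `δ p ^ 2 / 4 > p + 1`, `δ > 0` being as small as we please.
-/

open Filter MeasureTheory

namespace Pool.Agent.Results.MP_112ba8_nt.MomentsOnOneRay

/-- `|ζ(1/2 + it)|` -/
noncomputable def Z (t : ℝ) : ℝ := ‖riemannZeta (1 / 2 + t * Complex.I)‖

/-- the heights in `[a, b]`, at least `100`, at which `ζ(1/2 + iv)` is a positive real multiple of `u` -/
def Ray (u : ℂ) (a b : ℝ) : Set ℝ :=
  {v | 100 ≤ v ∧ a ≤ v ∧ v ≤ b ∧ ∃ r : ℝ, 0 < r ∧ riemannZeta (1 / 2 + v * Complex.I) = r * u}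

/-- the sum of `Φ(|ζ(1/2 + iv)|)` over these heights (they are finite in number for `u ≠ 0`) -/
noncomputable def S (Φ : ℝ → ℝ) (u : ℂ) (a b : ℝ) : ℝ := ∑ᶠ v ∈ Ray u a b, Φ (Z v)

/-- `Φ` is nonnegative and non-decreasing on `[0, ∞)` -/
def Increasing (Φ : ℝ → ℝ) : Prop := ∀ x y : ℝ, 0 ≤ x → x ≤ y → 0 ≤ Φ x ∧ Φ x ≤ Φ y

/-- the moment of order `p` is `O(T ^ ε)` for every `ε > 0` -/
def MomentBound (p : ℝ) : Prop := ∀ ε : ℝ, 0 < ε → ∃ B : ℝ, ∀ T : ℝ, 1 ≤ T →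
  1 / T * ∫ t in (0 : ℝ)..T, Z t ^ p ≤ B * T ^ ε

/-- the sum over the points of the ray, divided by `T`, is `O(T ^ ε)` for every `ε > 0` -/
def RayBound (p : ℝ) (u : ℂ) : Prop := ∀ ε : ℝ, 0 < ε → ∃ B : ℝ, ∀ T : ℝ, 1 ≤ T →
  1 / T * S (fun x => x ^ p) u 0 T ≤ B * T ^ ε

section proof

open Pool.Agent.N534.RayPhi

lemma adm_of {Φ : ℝ → ℝ} (h : Increasing Φ) : Adm Φ where
  mono := fun x hx y _ hxy => (h x y hx hxy).2
  nonneg := fun x hx => (h x x hx le_rfl).1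

lemma ray_eq {u : ℂ} (hu : u ≠ 0) (a b : ℝ) : Ray u a b = RI (u / (‖u‖ : ℂ)) a b := by
  unfold RI
  rw [← Pool.Agent.W188.Mom.RP_norm hu b]
  ext v
  unfold Ray Pool.Agent.W188.Mom.RP
  simp only [Set.mem_ofPred_eq]
  tauto

lemma nrm {u : ℂ} (hu : u ≠ 0) : ‖u / (‖u‖ : ℂ)‖ = 1 := Pool.Agent.W188.Mom.norm_dir hu

lemma S_eq {u : ℂ} (hu : u ≠ 0) (Φ : ℝ → ℝ) (a b : ℝ) :
    S Φ u a b = ∑ v ∈ (RI_finite (nrm hu) a b).toFinset, Φ (Pool.Agent.W188.Mom.Z v) := by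
  unfold S
  rw [ray_eq hu]
  exact finsum_mem_eq_finite_toFinset_sum _ (RI_finite (nrm hu) a b)

lemma S_pow {u : ℂ} (hu : u ≠ 0) (p T : ℝ) : S (fun x => x ^ p) u 0 T =
    Pool.Agent.W188.Mom.RS (u / (‖u‖ : ℂ)) p T := by
  unfold S Pool.Agent.W188.Mom.RS
  rw [ray_eq hu]
  have : RI (u / (‖u‖ : ℂ)) 0 T = Pool.Agent.W188.Mom.RP (u / (‖u‖ : ℂ)) T := by
    ext v
    unfold RI
    simp only [Set.mem_ofPred_eq, and_iff_right_iff_imp]
    intro h
    linarith [h.1]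
  rw [this]
  rfl

end proof

/-- **Theorem.** (0) The sets `Ray u a b` are finite. (1), (2) The two inequalities between the integral of a
non-decreasing function `Φ ≥ 0` of `|ζ|` over an interval and its sums over the points of a ray. (3) The bounds
for the moments and for the moments over the points of a ray are equivalent. (4) The lower bound for the moments
over the points of a ray in short intervals. The constants do not depend on `u`, nor on `Φ` in (1) and (2). -/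
theorem result :
    (∀ (u : ℂ) (a b : ℝ), u ≠ 0 → (Ray u a b).Finite) ∧
    (∃ C N : ℝ, 1 ≤ C ∧ ∀ T a b : ℝ, N ≤ a → a ≤ b → b ≤ T → ∀ u : ℂ, u ≠ 0 →
      ∀ Φ : ℝ → ℝ, Increasing Φ → ∫ t in a..b, Φ (Z t) ≤ C * Real.log T *
        ((b - a + 1) * Φ (C * Real.log T) +
          S (fun x => Φ (C * Real.log T * x)) u (a - C * Real.log T) (b + C * Real.log T))) ∧
    (∀ ε : ℝ, 0 < ε → ∃ B : ℝ, 1 ≤ B ∧ ∀ T a b : ℝ, 100 ≤ a → a ≤ b → b ≤ T → ∀ u : ℂ, u ≠ 0 →
      ∀ Φ : ℝ → ℝ, Increasing Φ → S Φ u a b ≤ B * Real.log T *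
        ((b - a + 1) * Φ (B * T ^ ε) + ∫ t in (a - 1)..(b + 1), Φ (T ^ ε * Z t))) ∧
    (∀ p : ℝ, 0 < p → ∀ u : ℂ, u ≠ 0 → (MomentBound p ↔ RayBound p u)) ∧
    ∀ p δ : ℝ, 2 ≤ p → 0 < δ → p + 1 < δ * (p ^ 2 / 4) → ∃ c T₀ : ℝ, 0 < c ∧
      ∀ T : ℝ, T₀ ≤ T → ∀ H : ℝ, Real.exp (Real.log T ^ δ) ≤ H → H ≤ T → ∀ u : ℂ, u ≠ 0 →
        c * (H * Real.log H ^ (p ^ 2 / 4)) / Real.log T ^ (p + 1) ≤
          S (fun x => x ^ p) u T (T + H) := by
  refine ⟨fun u a b hu => ?_, ?_, fun ε hε => ?_, fun p hp u hu => ?_, fun p δ hp hδ hpδ => ?_⟩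
  · rw [ray_eq hu]
    exact Pool.Agent.N534.RayPhi.RI_finite (nrm hu) a b
  · obtain ⟨C, N, hC, -, h⟩ := Pool.Agent.N534.RayPhi.majorant
    refine ⟨C, N, hC, fun T a b h1 h2 h3 u hu Φ hΦ => ?_⟩
    have h4 := h T a b h1 h2 h3 _ (nrm hu) Φ (adm_of hΦ)
    rw [S_eq hu]
    simp only [one_mul] at h4
    exact h4
  · obtain ⟨B, hB, h⟩ := Pool.Agent.N534.RayPhi.minorant hε
    refine ⟨B, hB, fun T a b h1 h2 h3 u hu Φ hΦ => ?_⟩
    rw [S_eq hu]
    exact h T a b h1 h2 h3 _ (nrm hu) Φ (adm_of hΦ)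
  · have e : RayBound p u ↔ Pool.Agent.W188.Mom.RayMomentBound (u / (‖u‖ : ℂ)) p := by
      unfold RayBound Pool.Agent.W188.Mom.RayMomentBound
      simp only [S_pow hu]
    rw [e]
    exact ⟨fun h => Pool.Agent.W188.Mom.ray_of_moment hp h (nrm hu),
      fun h => Pool.Agent.W188.Mom.moment_of_ray hp (nrm hu) h⟩
  · obtain ⟨c, T₀, hc, h⟩ := Pool.Agent.N534.RayPhi.lower_windows hp hδ hpδ
    refine ⟨c, T₀, hc, fun T hT H h1 h2 u hu => ?_⟩
    rw [S_eq hu]
    exact h T hT H h1 h2 _ (nrm hu)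

end Pool.Agent.Results.MP_112ba8_nt.MomentsOnOneRay
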